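import Pool.Agent.H98.KS.Targets2

open scoped BigOperators

namespace Pool.Agent.H90.KS

open Pool.Agent.H98.KS

namespace G3

lemma ee_add (x y : ℝ) : ee (x + y) = ee x * ee y := by
  unfold ee
  rw [← Complex.exp_add]
  congr 1
  push_cast
  ring

lemma ee_int (n : ℤ) : ee (n : ℝ) = 1 := by
  unfold ee
  rw [Complex.exp_eq_one_iff]
  exact ⟨n, by push_cast; ring⟩

lemma norm_ee (x : ℝ) : ‖ee x‖ = 1 := by
  unfold ee
  have : (2 * Real.pi * x * Complex.I : ℂ) = ((2 * Real.pi * x : ℝ) : ℂ) * Complex.I := by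
    push_cast; ring
  rw [this, Complex.norm_exp_ofReal_mul_I]

lemma ee_congr {x y : ℝ} (n : ℤ) (h : x = y + n) : ee x = ee y := by
  rw [h, ee_add, ee_int, mul_one]

lemma ee_pow (x : ℝ) (n : ℕ) : ee (x * n) = ee x ^ n := by
  unfold ee
  rw [← Complex.exp_nat_mul]
  congr 1
  push_cast
  ring

/-- geometric sums -/
lemma geo (M : ℕ) (hM : 1 ≤ M) (b : ℤ) :
    (((M : ℤ) ∣ b) → ∑ z ∈ Finset.range M, ee ((b : ℝ) / M * z) = M) ∧
    ((¬ (M : ℤ) ∣ b) → ∑ z ∈ Finset.range M, ee ((b : ℝ) / M * z) = 0) := by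
  have hM0 : (M : ℝ) ≠ 0 := by
    have : M ≠ 0 := by omega
    exact_mod_cast this
  constructor
  · rintro ⟨c, rfl⟩
    have : ∀ z ∈ Finset.range M, ee ((((M : ℤ) * c : ℤ) : ℝ) / M * (z : ℝ)) = 1 := by
      intro z _
      have e : (((M : ℤ) * c : ℤ) : ℝ) / M * (z : ℝ) = ((c * z : ℤ) : ℝ) := by
        push_cast
        field_simp
      rw [e, ee_int]
    rw [Finset.sum_congr rfl this]
    simp
  · intro hb
    have hw : ee ((b : ℝ) / M) ≠ 1 := by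
      unfold ee
      intro h
      rw [Complex.exp_eq_one_iff] at h
      obtain ⟨n, hn⟩ := h
      apply hb
      have hpi : (2 * Real.pi * Complex.I : ℂ) ≠ 0 := by
        simp [Real.pi_ne_zero]
      have h1 : (((b : ℝ) / M : ℝ) : ℂ) = (n : ℂ) := by
        have h2 : (((b : ℝ) / M : ℝ) : ℂ) * (2 * Real.pi * Complex.I) =
            (n : ℂ) * (2 * Real.pi * Complex.I) := by
          rw [← hn]; push_cast; ring
        exact mul_right_cancel₀ hpi h2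
      have h3 : (b : ℝ) / M = n := by exact_mod_cast h1
      rw [div_eq_iff hM0] at h3
      refine ⟨n, ?_⟩
      have : (b : ℝ) = ((M * n : ℤ) : ℝ) := by rw [h3]; push_cast; ring
      exact_mod_cast this
    have hs : ∑ z ∈ Finset.range M, ee ((b : ℝ) / M * z) =
        ∑ z ∈ Finset.range M, ee ((b : ℝ) / M) ^ z :=
      Finset.sum_congr rfl (fun z _ => ee_pow _ _)
    rw [hs]
    have hg := geom_sum_mul (ee ((b : ℝ) / M)) M
    rw [← ee_pow, div_mul_cancel₀ _ hM0, ee_int, sub_self] at hg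
    exact (mul_eq_zero.mp hg).resolve_right (sub_ne_zero.mpr hw)

lemma hdiv {k p v : ℕ} {a b : ℤ} (hp : p.Prime) (hk : 2 ≤ k) (h1 : p ^ v ∣ k)
    (h2 : ¬ p ^ (v + 1) ∣ k) (ha : ¬ (p : ℤ) ∣ a) (hb : ((p : ℤ) ^ (v + 1)) ∣ b) (r : ℕ) :
    (((p ^ (v + 1) : ℕ) : ℤ) ∣ k * a * (r : ℤ) ^ (k - 1) + b) ↔ p ∣ r := by
  have hp' : Prime (p : ℤ) := Nat.prime_iff_prime_int.mp hp
  obtain ⟨k', rfl⟩ := h1
  have hk' : ¬ p ∣ k' := by
    intro h
    apply h2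
    rw [pow_succ]
    exact mul_dvd_mul_left _ h
  push_cast
  rw [dvd_add_left hb]
  constructor
  · intro h
    have h3 : (p : ℤ) ^ v * p ∣ (p : ℤ) ^ v * (k' * a * (r : ℤ) ^ (p ^ v * k' - 1)) := by
      rw [← pow_succ]
      have e : (p : ℤ) ^ v * (k' * a * (r : ℤ) ^ (p ^ v * k' - 1)) =
          (p : ℤ) ^ v * k' * a * (r : ℤ) ^ (p ^ v * k' - 1) := by ring
      rw [e]
      exact h
    have h4 := (mul_dvd_mul_iff_left (pow_ne_zero v hp'.ne_zero)).mp h3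
    rcases hp'.dvd_mul.mp h4 with h5 | h5
    · rcases hp'.dvd_mul.mp h5 with h6 | h6
      · exact absurd (by exact_mod_cast h6) hk'
      · exact absurd h6 ha
    · have := hp'.dvd_of_dvd_pow h5
      exact_mod_cast this
  · rintro ⟨y, rfl⟩
    have h3 : (p : ℤ) ∣ (((p * y : ℕ) : ℤ)) ^ (p ^ v * k' - 1) :=
      dvd_pow (by push_cast; exact dvd_mul_right _ _) (by omega)
    obtain ⟨c, hc⟩ := h3
    rw [hc]
    exact ⟨k' * a * c, by ring⟩

/-- the set of the right side of `T_G2` -/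
lemma mem_do [∀ P, Decidable P] (N : ℕ) (r : ℤ) :
    (r ∈ ((Finset.range N) >>= fun a => (pure (a : ℤ) : Finset ℤ))) ↔ ∃ a, a < N ∧ r = a := by
  have h : ((Finset.range N) >>= fun a => (pure (a : ℤ) : Finset ℤ)) =
      (Finset.range N).sup (fun a => ({(a : ℤ)} : Finset ℤ)) := rfl
  rw [h, Finset.mem_sup]
  simp

open Classical in
lemma key (hG2 : T_G2) {k p j v : ℕ} {a b : ℤ} (hp : p.Prime) (hk : 2 ≤ k) (h1 : p ^ v ∣ k)
    (h2 : ¬ p ^ (v + 1) ∣ k) (hj : 2 * v + 2 ≤ j) (ha : ¬ (p : ℤ) ∣ a)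
    (hb : ((p : ℤ) ^ (v + 1)) ∣ b) :
    ∑ r ∈ Finset.range (p ^ j), ee (((a * (r : ℤ) ^ k + b * r : ℤ) : ℝ) / ((p ^ j : ℕ) : ℝ)) =
    ∑ y ∈ Finset.range (p ^ (j - 1)),
      ee (((a * ((p * y : ℕ) : ℤ) ^ k + b * ((p * y : ℕ) : ℤ) : ℤ) : ℝ) / ((p ^ j : ℕ) : ℝ)) := by
  have hp0 : 0 < p := hp.pos
  have g2 := hG2 k (p ^ (j - (v + 1))) (p ^ (v + 1)) a b (Nat.one_le_iff_ne_zero.mpr
    (pow_ne_zero _ hp0.ne')) (Nat.one_le_iff_ne_zero.mpr (pow_ne_zero _ hp0.ne'))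
    (pow_dvd_pow p (by omega))
  have hpj : p ^ (j - (v + 1)) * p ^ (v + 1) = p ^ j := by
    rw [← pow_add]; congr 1; omega
  have hc : ((p ^ (j - (v + 1)) : ℕ) : ℝ) * ((p ^ (v + 1) : ℕ) : ℝ) = ((p ^ j : ℕ) : ℝ) := by
    exact_mod_cast hpj
  simp only [hpj, hc] at g2
  rw [g2]
  have hpj1 : p ^ j = p * p ^ (j - 1) := by
    rw [← pow_succ']; congr 1; omega
  refine Finset.sum_nbij' (fun r : ℤ => (r / p).toNat) (fun y : ℕ => (((p * y : ℕ)) : ℤ))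
    ?_ ?_ ?_ ?_ ?_
  · intro r hr
    rw [Finset.mem_filter] at hr
    obtain ⟨hr1, hr2⟩ := hr
    obtain ⟨a', ha', rfl⟩ := (mem_do _ _).1 hr1
    obtain ⟨y, rfl⟩ := (hdiv hp hk h1 h2 ha hb a').1 hr2
    have e : (((p * y : ℕ) : ℤ) / (p : ℤ)).toNat = y := by
      push_cast
      rw [Int.mul_ediv_cancel_left _ (by exact_mod_cast hp0.ne')]
      simp
    rw [e, Finset.mem_range]
    rw [hpj1] at ha'
    exact Nat.lt_of_mul_lt_mul_left ha'
  · intro y hy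
    rw [Finset.mem_range] at hy
    rw [Finset.mem_filter]
    refine ⟨(mem_do _ _).2 ⟨p * y, ?_, rfl⟩, (hdiv hp hk h1 h2 ha hb _).2 (dvd_mul_right _ _)⟩
    rw [hpj1]
    exact Nat.mul_lt_mul_of_pos_left hy hp0
  · intro r hr
    rw [Finset.mem_filter] at hr
    obtain ⟨hr1, hr2⟩ := hr
    obtain ⟨a', ha', rfl⟩ := (mem_do _ _).1 hr1
    obtain ⟨y, rfl⟩ := (hdiv hp hk h1 h2 ha hb a').1 hr2
    have e : (((p * y : ℕ) : ℤ) / (p : ℤ)).toNat = y := by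
      push_cast
      rw [Int.mul_ediv_cancel_left _ (by exact_mod_cast hp0.ne')]
      simp
    simp only [e]
  · intro y _
    have e : (((p * y : ℕ) : ℤ) / (p : ℤ)).toNat = y := by
      push_cast
      rw [Int.mul_ediv_cancel_left _ (by exact_mod_cast hp0.ne')]
      simp
    exact e
  · intro r hr
    rw [Finset.mem_filter] at hr
    obtain ⟨hr1, hr2⟩ := hr
    obtain ⟨a', ha', rfl⟩ := (mem_do _ _).1 hr1
    obtain ⟨y, rfl⟩ := (hdiv hp hk h1 h2 ha hb a').1 hr2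
    have e : (((p * y : ℕ) : ℤ) / (p : ℤ)).toNat = y := by
      push_cast
      rw [Int.mul_ediv_cancel_left _ (by exact_mod_cast hp0.ne')]
      simp
    simp only [e]

/-- the sum over `y` after the substitution -/
lemma split {k p j : ℕ} {a b : ℤ} (hp : p.Prime) (hk : 2 ≤ k) (hkj : k < j) :
    ∑ y ∈ Finset.range (p ^ (j - 1)),
      ee (((a * ((p * y : ℕ) : ℤ) ^ k + b * ((p * y : ℕ) : ℤ) : ℤ) : ℝ) / ((p ^ j : ℕ) : ℝ)) =
    (∑ y ∈ Finset.range (p ^ (j - k)),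
      ee (((a * (y : ℤ) ^ k : ℤ) : ℝ) / (p : ℝ) ^ (j - k) + (b : ℝ) * y / (p : ℝ) ^ (j - 1))) *
    ∑ z ∈ Finset.range (p ^ (k - 1)), ee ((b : ℝ) / ((p ^ (k - 1) : ℕ) : ℝ) * z) := by
  have hp0 : (p : ℝ) ≠ 0 := by exact_mod_cast hp.ne_zero
  have hpj1 : p ^ (j - 1) = p ^ (j - k) * p ^ (k - 1) := by
    rw [← pow_add]; congr 1; omega
  rw [Finset.sum_mul_sum, ← Finset.sum_product']
  have hpos : 0 < p ^ (j - k) := pow_pos hp.pos _
  refine Finset.sum_nbij' (fun y => (y % p ^ (j - k), y / p ^ (j - k)))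
    (fun x => x.1 + p ^ (j - k) * x.2) ?_ ?_ ?_ ?_ ?_
  · intro y hy
    rw [Finset.mem_range, hpj1] at hy
    rw [Finset.mem_product, Finset.mem_range, Finset.mem_range]
    exact ⟨Nat.mod_lt _ hpos, Nat.div_lt_of_lt_mul hy⟩
  · rintro ⟨y, z⟩ h
    rw [Finset.mem_product, Finset.mem_range, Finset.mem_range] at h
    rw [Finset.mem_range, hpj1]
    simp only at h ⊢
    calc y + p ^ (j - k) * z < p ^ (j - k) + p ^ (j - k) * z := by omega
      _ = p ^ (j - k) * (z + 1) := by ring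
      _ ≤ p ^ (j - k) * p ^ (k - 1) := Nat.mul_le_mul_left _ h.2
  · intro y _
    exact Nat.mod_add_div _ _
  · rintro ⟨y, z⟩ h
    rw [Finset.mem_product, Finset.mem_range, Finset.mem_range] at h
    simp only at h ⊢
    rw [Nat.add_mul_mod_self_left, Nat.mod_eq_of_lt h.1, Nat.add_mul_div_left _ _ hpos,
      Nat.div_eq_of_lt h.1, zero_add]
  · intro y _
    obtain ⟨y0, hy0⟩ : ∃ y0, y % p ^ (j - k) = y0 := ⟨_, rfl⟩
    obtain ⟨z, hz⟩ : ∃ z, y / p ^ (j - k) = z := ⟨_, rfl⟩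
    have hy : y = y0 + p ^ (j - k) * z := by rw [← hy0, ← hz]; exact (Nat.mod_add_div _ _).symm
    simp only [hy0, hz]
    rw [← ee_add]
    have hmod : ((p : ℤ) ^ (j - k)) ∣ (y : ℤ) ^ k - (y0 : ℤ) ^ k := by
      have : ((p : ℤ) ^ (j - k)) ∣ (y : ℤ) - (y0 : ℤ) := ⟨z, by rw [hy]; push_cast; ring⟩
      exact this.trans (sub_dvd_pow_sub_pow _ _ k)
    obtain ⟨c, hc⟩ := hmod
    have hyk : (y : ℝ) ^ k = (y0 : ℝ) ^ k + (p : ℝ) ^ (j - k) * c := by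
      have : (y : ℤ) ^ k = (y0 : ℤ) ^ k + (p : ℤ) ^ (j - k) * c := by linarith
      exact_mod_cast this
    have hyr : (y : ℝ) = y0 + (p : ℝ) ^ (j - k) * z := by
      rw [hy]; push_cast; ring
    refine ee_congr (a * c) ?_
    have e1 : (p : ℝ) ^ j = (p : ℝ) ^ (j - k) * (p : ℝ) ^ k := by
      rw [← pow_add]; congr 1; omega
    have e2 : (p : ℝ) ^ (j - 1) = (p : ℝ) ^ (j - k) * (p : ℝ) ^ (k - 1) := by
      rw [← pow_add]; congr 1; omega
    have e3 : (p : ℝ) ^ k = p * (p : ℝ) ^ (k - 1) := by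
      rw [← pow_succ']; congr 1; omega
    push_cast
    rw [mul_pow, hyk, hyr, e1, e2, e3]
    field_simp
    ring

end G3

open G3 in
theorem ks_G3 (hG2 : T_G2) (_hGE : T_GE) : T_G3 := by
  intro k p j v a b hp hk h1 h2 hj ha hb
  have hp0 : 0 < p := hp.pos
  have hpr : (0 : ℝ) < p := by exact_mod_cast hp0
  have hkey := key hG2 hp hk h1 h2 hj ha hb
  have hGG : GG k a b (p ^ j) = (1 / ((p ^ j : ℕ) : ℂ)) * ∑ y ∈ Finset.range (p ^ (j - 1)),
      ee (((a * ((p * y : ℕ) : ℤ) ^ k + b * ((p * y : ℕ) : ℤ) : ℤ) : ℝ) / ((p ^ j : ℕ) : ℝ)) := by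
    rw [← hkey]; rfl
  have hpj1 : (p : ℝ) ^ j = p * (p : ℝ) ^ (j - 1) := by
    rw [← pow_succ']; congr 1; omega
  constructor
  · intro _
    rw [hGG, norm_mul]
    have hn : ‖∑ y ∈ Finset.range (p ^ (j - 1)),
      ee (((a * ((p * y : ℕ) : ℤ) ^ k + b * ((p * y : ℕ) : ℤ) : ℤ) : ℝ) / ((p ^ j : ℕ) : ℝ))‖ ≤
        (p : ℝ) ^ (j - 1) := by
      refine (norm_sum_le _ _).trans ?_
      simp only [norm_ee]
      simp
    have hn2 : ‖(1 / ((p ^ j : ℕ) : ℂ))‖ = 1 / (p : ℝ) ^ j := by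
      simp
    rw [hn2]
    calc 1 / (p : ℝ) ^ j * _ ≤ 1 / (p : ℝ) ^ j * (p : ℝ) ^ (j - 1) :=
          mul_le_mul_of_nonneg_left hn (by positivity)
      _ = 1 / p := by rw [hpj1]; field_simp
  · intro hkj
    rw [split hp hk hkj] at hGG
    by_cases hd : (((p ^ (k - 1) : ℕ) : ℤ)) ∣ b
    · rw [(geo (p ^ (k - 1)) (Nat.one_le_iff_ne_zero.mpr (pow_ne_zero _ hp0.ne')) b).1 hd] at hGG
      obtain ⟨b', hb'⟩ := hd
      refine ⟨b', le_of_eq ?_⟩
      have hs : ∀ y : ℕ, ((a * (y : ℤ) ^ k : ℤ) : ℝ) / (p : ℝ) ^ (j - k) +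
          (b : ℝ) * y / (p : ℝ) ^ (j - 1) =
          ((a * (y : ℤ) ^ k + b' * y : ℤ) : ℝ) / ((p ^ (j - k) : ℕ) : ℝ) := by
        intro y
        have e2 : (p : ℝ) ^ (j - 1) = (p : ℝ) ^ (j - k) * (p : ℝ) ^ (k - 1) := by
          rw [← pow_add]; congr 1; omega
        have e3 : (b : ℝ) = (p : ℝ) ^ (k - 1) * b' := by rw [hb']; push_cast; ring
        rw [e2, e3]
        push_cast
        field_simp
      simp only [hs] at hGG
      have hG' : GG k a b' (p ^ (j - k)) = (1 / ((p ^ (j - k) : ℕ) : ℂ)) *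
          ∑ y ∈ Finset.range (p ^ (j - k)),
            ee (((a * (y : ℤ) ^ k + b' * y : ℤ) : ℝ) / ((p ^ (j - k) : ℕ) : ℝ)) := rfl
      have hpc : (p : ℂ) ≠ 0 := by exact_mod_cast hp.ne_zero
      have e1 : (p : ℂ) ^ j = p * (p : ℂ) ^ (j - k) * (p : ℂ) ^ (k - 1) := by
        rw [mul_assoc, ← pow_add, ← pow_succ']; congr 1; omega
      have hfin : GG k a b (p ^ j) = 1 / (p : ℂ) * GG k a b' (p ^ (j - k)) := by
        rw [hGG, hG']
        push_cast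
        rw [e1]
        field_simp
      rw [hfin, norm_mul]
      simp
    · rw [(geo (p ^ (k - 1)) (Nat.one_le_iff_ne_zero.mpr (pow_ne_zero _ hp0.ne')) b).2 hd,
        mul_zero, mul_zero] at hGG
      exact ⟨0, by rw [hGG, norm_zero]; positivity⟩

end Pool.Agent.H90.KS
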