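import Pool.Agent.H98.KS.Targets1

open scoped BigOperators

namespace Pool.Agent.H90.KS

open Pool.Agent.H98.KS

theorem ks_RT : T_RT := by
  intro k d L N c0 F X hk hL hc0 hN hX
  have hsub : X ⊆ F.biUnion (fun y => Fintype.piFinset
      (fun i => Finset.Icc (y i - 2 * (L : ℤ)) (y i + 2 * (L : ℤ)))) := by
    intro x hx
    obtain ⟨l, -, hl, hc⟩ := hX x hx
    have hL0 : (0 : ℝ) < L := by exact_mod_cast hL
    have hpos : (0 : ℝ) < (cnt k F x l : ℝ) := lt_of_lt_of_le (by positivity) hc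
    have hpos' : 0 < cnt k F x l := by exact_mod_cast hpos
    obtain ⟨y, hy⟩ := Finset.card_pos.mp hpos'
    rw [Finset.mem_filter] at hy
    refine Finset.mem_biUnion.mpr ⟨y, hy.1, Fintype.mem_piFinset.mpr fun i => ?_⟩
    have h1 : ((x - y) i).natAbs ^ k ≤ l := by
      rw [← hy.2]
      exact Finset.single_le_sum (f := fun i => ((x - y) i).natAbs ^ k) (fun _ _ => Nat.zero_le _)
        (Finset.mem_univ i)
    have h2 : ((x - y) i).natAbs < 2 * L :=
      lt_of_pow_lt_pow_left₀ k (Nat.zero_le _) (lt_of_le_of_lt h1 hl)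
    rw [Pi.sub_apply] at h2
    rw [Finset.mem_Icc]
    omega
  have hcard : ∀ y : Fin d → ℤ, (Fintype.piFinset
      (fun i => Finset.Icc (y i - 2 * (L : ℤ)) (y i + 2 * (L : ℤ)))).card ≤ (5 * L) ^ d := by
    intro y
    rw [Fintype.card_piFinset]
    have : ∀ i : Fin d, (Finset.Icc (y i - 2 * (L : ℤ)) (y i + 2 * (L : ℤ))).card ≤ 5 * L := by
      intro i
      rw [Int.card_Icc]
      omega
    calc ∏ i : Fin d, (Finset.Icc (y i - 2 * (L : ℤ)) (y i + 2 * (L : ℤ))).card
        ≤ ∏ _i : Fin d, 5 * L := Finset.prod_le_prod (fun _ _ => Nat.zero_le _) (fun i _ => this i)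
      _ = (5 * L) ^ d := by simp
  have h : X.card ≤ (5 * L) ^ d * F.card := by
    calc X.card ≤ _ := Finset.card_le_card hsub
      _ ≤ ∑ y ∈ F, (Fintype.piFinset
          (fun i => Finset.Icc (y i - 2 * (L : ℤ)) (y i + 2 * (L : ℤ)))).card :=
        Finset.card_biUnion_le
      _ ≤ ∑ _y ∈ F, (5 * L) ^ d := Finset.sum_le_sum fun y _ => hcard y
      _ = (5 * L) ^ d * F.card := by simp [mul_comm]
  exact_mod_cast h

end Pool.Agent.H90.KS
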